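import Mathlib
import Pool.Agent.H577R3.RM.Stmts

set_option autoImplicit false

namespace Pool.Agent.H663R3.RM

open Pool.Agent.H577R3.RM

theorem bound_EE (n ℓ : ℕ) : n.factorial * (ℓ + 1) ^ n ≤ EE n ℓ := by
  unfold EE
  calc n.factorial * (ℓ + 1) ^ n ≤ n ^ n * (ℓ + 1) ^ n :=
        Nat.mul_le_mul_right _ (Nat.factorial_le_pow n)
    _ = (n * (ℓ + 1)) ^ n := (mul_pow _ _ _).symm
    _ ≤ (n * (ℓ + 1) + 2) ^ n := Nat.pow_le_pow_left (by omega) _
    _ ≤ (n * (ℓ + 1) + 2) ^ (n + 1) := Nat.pow_le_pow_right (by omega) (by omega)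

theorem det_bound {n ℓ : ℕ} (M : Matrix (Fin n) (Fin n) ℤ) (h : ∀ i j, |M i j| ≤ (ℓ : ℤ) + 1) :
    |M.det| ≤ (EE n ℓ : ℤ) := by
  have h1 := Matrix.det_le (A := M) (abv := (AbsoluteValue.abs : AbsoluteValue ℤ ℤ))
    (x := (ℓ : ℤ) + 1) (by intro i j; exact h i j)
  have h2 : |M.det| ≤ (n.factorial : ℤ) * ((ℓ : ℤ) + 1) ^ n := by
    simpa [nsmul_eq_mul] using h1
  refine h2.trans ?_
  exact_mod_cast bound_EE n ℓ

theorem taskRAD : TaskRAD := by
  classical
  intro n m ℓ v C hC hv
  obtain ⟨hcard, hlin⟩ := hC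
  let I := Fin m ⊕ {c // c ∈ C}
  have hI : Fintype.card I = n := by
    simp only [I, Fintype.card_sum, Fintype.card_fin, Fintype.card_coe]
    exact hcard
  let e : I ≃ Fin n := Fintype.equivFinOfCardEq hI
  let R : I → Fin n → ℤ := Sum.elim v (fun c : {c // c ∈ C} => (Pi.single c.1 1 : Fin n → ℤ))
  let M : Matrix (Fin n) (Fin n) ℤ := fun a l => R (e.symm a) l
  have hdet : M.det ≠ 0 := by
    intro h0
    obtain ⟨u, hu, hu0⟩ := Matrix.exists_vecMul_eq_zero_iff.2 h0
    have hl : LinearIndependent ℤ (fun a : Fin n => R (e.symm a)) :=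
      hlin.comp _ e.symm.injective
    rw [Fintype.linearIndependent_iff] at hl
    apply hu
    funext a
    refine hl u ?_ a
    funext l
    have := congrFun hu0 l
    simp only [Matrix.vecMul, dotProduct, M, Pi.zero_apply] at this
    simp only [Finset.sum_apply, Pi.smul_apply, smul_eq_mul, Pi.zero_apply]
    exact this
  have hR : ∀ a l, |R a l| ≤ (ℓ : ℤ) + 1 := by
    intro a l
    rcases a with j | c
    · have := hv j l
      change |v j l| ≤ _
      omega
    · change |(Pi.single c.1 1 : Fin n → ℤ) l| ≤ _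
      by_cases h : l = c.1
      · subst h
        simp
      · rw [Pi.single_eq_of_ne h]
        simp
        omega
  have hM : ∀ a l, |M a l| ≤ (ℓ : ℤ) + 1 := fun a l => hR _ l
  have hadj : ∀ i a, |M.adjugate i a| ≤ (EE n ℓ : ℤ) := by
    intro i a
    rw [Matrix.adjugate_apply]
    refine det_bound _ ?_
    intro b l
    by_cases hb : b = a
    · subst hb
      rw [Matrix.updateRow_self]
      by_cases h : l = i
      · subst h
        simp
      · rw [Pi.single_eq_of_ne h]
        simp
        omega
    · rw [Matrix.updateRow_ne hb]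
      exact hM b l
  let s : ℤ := Int.sign M.det
  have hs : s * M.det = |M.det| := Int.sign_mul_self_eq_abs M.det
  have hsabs : |s| ≤ 1 := by
    rcases Int.sign_trichotomy M.det with h | h | h <;> simp [s, h]
  refine ⟨M.det.natAbs, fun i c => if h : c ∈ C then s * M.adjugate i (e (Sum.inr ⟨c, h⟩)) else 0,
    Nat.one_le_iff_ne_zero.2 (Int.natAbs_ne_zero.2 hdet), ?_, ?_, ?_⟩
  · have := det_bound M hM
    rw [Int.abs_eq_natAbs] at this
    exact_mod_cast this
  · intro i c
    by_cases h : c ∈ C
    · simp only [h, dite_true, abs_mul]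
      calc |s| * |M.adjugate i (e (Sum.inr ⟨c, h⟩))|
          ≤ 1 * |M.adjugate i (e (Sum.inr ⟨c, h⟩))| :=
            mul_le_mul_of_nonneg_right hsabs (abs_nonneg _)
        _ ≤ _ := by rw [one_mul]; exact hadj _ _
    · simp [h]
  · intro K _ θ hθ i _
    have h1 : ∀ l, ∑ a, M.adjugate i a * M a l = if i = l then M.det else 0 := by
      intro l
      have h2 := congrFun (congrFun (Matrix.adjugate_mul M) i) l
      rw [Matrix.mul_apply] at h2
      rw [h2, Matrix.smul_apply, Matrix.one_apply]
      split_ifs <;> simp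
    have h3 : θ i ^ M.det = ∏ a, (∏ l, θ l ^ M a l) ^ M.adjugate i a := by
      have h4 : ∏ l, θ l ^ (∑ a, M.adjugate i a * M a l) = θ i ^ M.det := by
        rw [Finset.prod_eq_single i]
        · rw [h1 i, if_pos rfl]
        · intro l _ hl
          rw [h1 l, if_neg (fun h => hl h.symm), zpow_zero]
        · intro h
          exact absurd (Finset.mem_univ _) h
      rw [← h4]
      have h5 : ∀ l, θ l ^ (∑ a, M.adjugate i a * M a l) =
          ∏ a, (θ l ^ M a l) ^ M.adjugate i a := by
        intro l
        have h6 : ∀ (A : Finset (Fin n)), θ l ^ (∑ a ∈ A, M.adjugate i a * M a l) =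
            ∏ a ∈ A, (θ l ^ M a l) ^ M.adjugate i a := by
          intro A
          induction A using Finset.induction_on with
          | empty => simp
          | insert b A hb ih =>
            rw [Finset.sum_insert hb, Finset.prod_insert hb, zpow_add, ih, ← zpow_mul,
              mul_comm (M b l)]
        exact h6 _
      simp only [h5]
      rw [Finset.prod_comm]
      refine Finset.prod_congr rfl fun a _ => ?_
      rw [Finset.prod_zpow]
    have h7 : ∀ a : I, ∏ l, θ l ^ M (e a) l = Sum.elim (fun _ => 1) (fun c => θ c.1) a := by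
      intro a
      rcases a with j | c
      · have := hθ j
        simp only [Sum.elim_inl]
        simpa [mon, M, R] using this
      · simp only [Sum.elim_inr]
        have h8 : ∀ l, M (e (Sum.inr c)) l = (Pi.single c.1 1 : Fin n → ℤ) l := by
          intro l
          simp [M, R]
        simp only [h8]
        rw [Finset.prod_eq_single c.1]
        · simp
        · intro l _ hl
          rw [Pi.single_eq_of_ne hl, zpow_zero]
        · intro h
          exact absurd (Finset.mem_univ _) h
    have h9 : θ i ^ M.det = ∏ c : {c // c ∈ C}, θ c.1 ^ M.adjugate i (e (Sum.inr c)) := by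
      rw [h3, ← e.prod_comp, Fintype.prod_sum_type]
      simp only [h7, Sum.elim_inl, Sum.elim_inr, one_zpow, Finset.prod_const_one, one_mul]
    have h10 : θ i ^ M.det.natAbs = (θ i ^ M.det) ^ s := by
      rw [← zpow_mul, mul_comm, hs, Int.abs_eq_natAbs, zpow_natCast]
    rw [h10, h9, ← Finset.prod_zpow, ← Finset.prod_coe_sort C]
    refine Finset.prod_congr rfl fun c _ => ?_
    have h11 : (if h : c.1 ∈ C then s * M.adjugate i (e (Sum.inr ⟨c.1, h⟩)) else 0) =
        M.adjugate i (e (Sum.inr c)) * s := by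
      rw [dif_pos c.2, mul_comm]
    beta_reduce
    rw [h11, zpow_mul]

end Pool.Agent.H663R3.RM
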